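import Pool.Agent.Y440.P.Final
import Pool.Agent.Y440.P.Lim
import Pool.Agent.Y430.Q440.Univ
import Pool.Agent.Y705.Q440.Lower

/-! Turan density 11/16 for every class of 4-graphs that contains all 4-graphs in which every five vertices span an even
number of edges and satisfies `5 N_5 + N_3 ≤ 3 N_1` (for example: `K_5^4`-free and no five vertices span exactly three
edges). -/

set_option autoImplicit false

open Finset Filter

namespace Pool.Agent.Results.MP_a4d830_co.EvenFiveSets

/-- number of members of `H` contained in `S` -/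
def inside {n : ℕ} (H : Finset (Finset (Fin n))) (S : Finset (Fin n)) : ℕ := (H.filter (· ⊆ S)).card

/-- number of five-element sets of vertices that span exactly `k` members of `H` -/
def fives {n : ℕ} (H : Finset (Finset (Fin n))) (k : ℕ) : ℕ :=
  ((powersetCard 5 (univ : Finset (Fin n))).filter (fun S => inside H S = k)).card

/-- every five vertices span an even number of members of `H` -/
def IsEven (n : ℕ) (H : Finset (Finset (Fin n))) : Prop :=
  ∀ S ∈ powersetCard 5 (univ : Finset (Fin n)), Even (inside H S)

/-- `5 N_5 + N_3 ≤ 3 N_1`, where `N_k` is the number of five-sets spanning exactly `k` members of `H` -/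
def Balanced (n : ℕ) (H : Finset (Finset (Fin n))) : Prop := 5 * fives H 5 + fives H 3 ≤ 3 * fives H 1

/-- largest number of edges of a 4-graph on the vertex set `Fin n` with property `P` -/
noncomputable def largest (P : (n : ℕ) → Finset (Finset (Fin n)) → Prop) (n : ℕ) : ℕ :=
  sSup {m : ℕ | ∃ H : Finset (Finset (Fin n)), H ⊆ powersetCard 4 univ ∧ P n H ∧ H.card = m}

theorem result (P : (n : ℕ) → Finset (Finset (Fin n)) → Prop)
    (h1 : ∀ (n : ℕ) (H : Finset (Finset (Fin n))), H ⊆ powersetCard 4 univ → IsEven n H → P n H)
    (h2 : ∀ (n : ℕ) (H : Finset (Finset (Fin n))), H ⊆ powersetCard 4 univ → P n H → Balanced n H) :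
    Tendsto (fun n : ℕ => (largest P n : ℝ) / (n.choose 4 : ℝ)) atTop (nhds (11 / 16)) :=
  Pool.Agent.Y440.P.lim Pool.Agent.Y430.Q440.t Pool.Agent.Y440.P.main Pool.Agent.Y705.Q440.Lower.t P h1 h2

end Pool.Agent.Results.MP_a4d830_co.EvenFiveSets
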