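import Pool.Agent.Y47.BU5.CUA

/-!
# `K_5^3`-free 3-graphs: density `3/4` for infinitely many forbidden link graphs

The conjecture `π(K_5^3) = 3/4` is proved here for `K_5^3`-free 3-graphs with (almost) no induced
copies of a graph `F` in their link graphs, where `F` is any graph of the following families, which
contain arbitrarily large graphs:

* the complete tripartite graphs `K_{1,s,t}` and their induced subgraphs, for example `K_{s,t}`;
* an edge with any number of isolated vertices;
* a triangle with an isolated vertex.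

Outline: the library has a sum of squares certificate which bounds the number of edges of a
`K_5^3`-free 3-graph by `n³/8` and the number of induced copies of three 3-graphs on six vertices. If
one of them, `X`, has positive density, then by the theorem of Erdős on complete multipartite
hypergraphs and Ramsey's theorem there are many large blow-ups of `X` in which the six parts are
independent and each triple with two vertices in a part and one in another part depends only on the
parts. A decision tree shows that each such blow-up contains five vertices with ten edges or a copy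
of `F` in a link graph. So `X` has density `o(1)`.
-/

set_option autoImplicit false
set_option maxRecDepth 100000
set_option maxHeartbeats 4000000
open Finset
open scoped Classical

namespace Pool.Agent.Results.MP_a4d830_co.FiveCliqueInfiniteLinks
open Pool.Agent.Y47.BU Pool.Agent.Y47.BU5

/-- The 3-graph `H` has no five vertices spanning all ten triples. -/
def K53Free {n : ℕ} (H : Finset (Finset (Fin n))) : Prop :=
  ∀ S : Finset (Fin n), S.card = 5 → ∃ s ⊆ S, s.card = 3 ∧ s ∉ H

/-- The number of labelled induced copies of the graph `F` in the link graphs of `H`: the pairs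
`(v, f)` of a vertex `v` and an injection `f` from the vertices of `F` to the vertices other than `v`
such that `u w` is an edge of `F` if and only if `v, f u, f w` form an edge of `H`. -/
noncomputable def linkCopies {α : Type} [Fintype α] (F : SimpleGraph α) {n : ℕ}
    (H : Finset (Finset (Fin n))) : ℕ :=
  ((univ : Finset (Fin n × (α → Fin n))).filter fun q => Function.Injective q.2 ∧
    (∀ u, q.2 u ≠ q.1) ∧
    ∀ u w, u ≠ w → (F.Adj u w ↔ ({q.1, q.2 u, q.2 w} : Finset (Fin n)) ∈ H)).card

/-- The graph `F` arises from an induced subgraph of the graph with the edges `A` on `X ∪ Y` when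
the vertices in `X` are replaced by independent sets of any sizes. -/
def Fits (A : Finset (Finset (Fin 4))) (X Y : Finset (Fin 4)) {α : Type} (F : SimpleGraph α) :
    Prop :=
  ∃ φ : α → Fin 4, (∀ u, φ u ∈ X ∪ Y) ∧ (∀ u w, u ≠ w → φ u = φ w → φ u ∈ X) ∧
    ∀ u w, u ≠ w → (F.Adj u w ↔ ({φ u, φ w} : Finset (Fin 4)) ∈ A)

/-- `F` is an induced subgraph of a complete tripartite graph `K_{1,s,t}` (the classes `0` and `1`
have any sizes, the class `2` has one vertex). -/
def TripartiteOne {α : Type} (F : SimpleGraph α) : Prop :=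
  Fits {{0, 1}, {0, 2}, {1, 2}} {0, 1} {2} F

/-- `F` is an induced subgraph of the disjoint union of an edge `0 1` and isolated vertices (the
class `2`). -/
def EdgeIsolated {α : Type} (F : SimpleGraph α) : Prop :=
  Fits {{0, 1}} {2} {0, 1} F

/-- `F` is an induced subgraph of the disjoint union of a triangle `0 1 2` and a vertex `3`. -/
def TriangleIsolated {α : Type} (F : SimpleGraph α) : Prop :=
  Fits {{0, 1}, {0, 2}, {1, 2}} ∅ {0, 1, 2, 3} F

/-- The graph with the edges `A` on `0, ..., k - 1` is an induced subgraph of `F`. -/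
def Inside {k : ℕ} (A : Finset (Finset (Fin k))) {α : Type} (F : SimpleGraph α) : Prop :=
  ∃ f : Fin k → α, Function.Injective f ∧ ∀ i j, i ≠ j → (F.Adj (f i) (f j) ↔ {i, j} ∈ A)

/-- Turán's construction: the triples that meet both `A` and its complement. -/
noncomputable def twoClass {n : ℕ} (A : Finset (Fin n)) : Finset (Finset (Fin n)) :=
  univ.filter fun e => e.card = 3 ∧ ¬ e ⊆ A ∧ ¬ e ⊆ Aᶜ

theorem fits_main {A : Finset (Finset (Fin 4))} {X Y : Finset (Fin 4)} (P : Pt)
    (hok : ∀ m ∈ Pool.Agent.H37R3.UA.MS, ∃ tr, ck5 P m [] tr = true) (hP : 0 < P.k)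
    (h1 : ∀ a ∈ X ∪ Y, a.val + 1 < P.k)
    (h2 : ∀ a ∈ X ∪ Y, ∀ b ∈ X ∪ Y, a < b →
      (0, a.val + 1, b.val + 1, if ({a, b} : Finset (Fin 4)) ∈ A then 1 else 0) ∈ P.T)
    (h3 : ∀ a ∈ X, (a.val + 1, 0, 0) ∈ P.R) (h4 : ∀ a : Fin 4, ({a, a} : Finset (Fin 4)) ∉ A)
    {α : Type} [Fintype α] {F : SimpleGraph α} (hF : Fits A X Y F) {ε : ℝ} (hε : 0 < ε) :
    ∃ δ : ℝ, 0 < δ ∧ ∃ n0 : ℕ, ∀ n, n0 ≤ n →
      ∀ H : Finset (Finset (Fin n)), (∀ e ∈ H, e.card = 3) → K53Free H →
      (linkCopies F H : ℝ) ≤ δ * (n : ℝ) ^ (Fintype.card α + 1) →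
      (H.card : ℝ) ≤ (3 / 4 + ε) * (n.choose 3 : ℝ) := by
  obtain ⟨φ, a1, a2, a3⟩ := hF
  refine link_main5 certUA P hok F (fun u => (φ u).val) hP (fun u => h1 _ (a1 u)) ?_ ?_ hε
  · intro u v huv hlt
    have e1 := h2 _ (a1 u) _ (a1 v) hlt
    have e2 : (if F.Adj u v then 1 else 0 : ℕ) =
        if ({φ u, φ v} : Finset (Fin 4)) ∈ A then 1 else 0 := by
      simp only [a3 u v huv]
    rw [e2]
    exact e1
  · intro u v huv he
    have he' : φ u = φ v := Fin.ext he
    refine ⟨h3 _ (a2 u v huv he'), ?_⟩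
    rw [a3 u v huv, he']
    exact h4 _

theorem twoClass_free {n : ℕ} (A : Finset (Fin n)) : K53Free (twoClass A) := by
  intro S hS
  have h1 : (S.filter fun x => x ∈ A).card + (S.filter fun x => ¬ x ∈ A).card = 5 := by
    rw [card_filter_add_card_filter_not, hS]
  rcases Nat.lt_or_ge (S.filter fun x => x ∈ A).card 3 with h2 | h2
  · obtain ⟨s, hs, hs3⟩ := exists_subset_card_eq (s := S.filter fun x => ¬ x ∈ A) (n := 3)
      (by omega)
    refine ⟨s, hs.trans (filter_subset _ _), hs3, fun h => ?_⟩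
    exact (mem_filter.mp h).2.2.2 fun x hx => mem_compl.mpr (mem_filter.mp (hs hx)).2
  · obtain ⟨s, hs, hs3⟩ := exists_subset_card_eq (s := S.filter fun x => x ∈ A) (n := 3) h2
    refine ⟨s, hs.trans (filter_subset _ _), hs3, fun h => ?_⟩
    exact (mem_filter.mp h).2.2.1 fun x hx => (mem_filter.mp (hs hx)).2

theorem mem_two {n : ℕ} {A : Finset (Fin n)} {a b c : Fin n} (hab : a ≠ b) (hac : a ≠ c)
    (hbc : b ≠ c) : ({a, b, c} : Finset (Fin n)) ∈ twoClass A ↔
      ¬ ((a ∈ A ↔ b ∈ A) ∧ (a ∈ A ↔ c ∈ A)) := by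
  unfold twoClass
  rw [mem_filter]
  have h1 : ({a, b, c} : Finset (Fin n)).card = 3 := by
    rw [card_insert_of_notMem, card_insert_of_notMem, card_singleton]
    · simpa using hbc
    · simpa using ⟨hab, hac⟩
  have h2 : ({a, b, c} : Finset (Fin n)) ⊆ A ↔ a ∈ A ∧ b ∈ A ∧ c ∈ A := by
    simp only [insert_subset_iff, singleton_subset_iff]
  have h3 : ({a, b, c} : Finset (Fin n)) ⊆ Aᶜ ↔ a ∉ A ∧ b ∉ A ∧ c ∉ A := by
    simp only [insert_subset_iff, singleton_subset_iff, mem_compl]
  rw [h2, h3]
  by_cases ha : a ∈ A <;> by_cases hb : b ∈ A <;> by_cases hc : c ∈ A <;>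
    simp [h1, ha, hb, hc]

theorem link_two {α : Type} [Fintype α] {F : SimpleGraph α} {n : ℕ} (A : Finset (Fin n))
    (h : ∀ (s : α → Prop), ¬ ∀ u w, u ≠ w → (F.Adj u w ↔ ¬ (s u ∧ s w))) :
    linkCopies F (twoClass A) = 0 := by
  unfold linkCopies
  rw [card_eq_zero, filter_eq_empty_iff]
  rintro ⟨v, f⟩ - ⟨h1, h2, h3⟩
  refine h (fun u => (v ∈ A ↔ f u ∈ A)) fun u w huw => ?_
  rw [h3 u w huw]
  exact mem_two (h2 u).symm (h2 w).symm (h1.ne huw)

theorem core_two {α : Type} [Fintype α] {F : SimpleGraph α}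
    (hF : Inside (k := 3) {{0, 1}} F ∨ Inside (k := 4) {{0, 1}, {1, 2}, {2, 3}, {0, 3}} F) {n : ℕ}
    (A : Finset (Fin n)) : linkCopies F (twoClass A) = 0 := by
  refine link_two A fun s h => ?_
  rcases hF with ⟨j, hj, h1⟩ | ⟨j, hj, h1⟩
  · have e : ∀ x y : Fin 3, x ≠ y → (({x, y} : Finset (Fin 3)) ∈
        ({{0, 1}} : Finset (Finset (Fin 3))) ↔ ¬ (s (j x) ∧ s (j y))) := fun x y hxy => by
      rw [← h1 x y hxy]; exact h _ _ (hj.ne hxy)
    have e1 := (e 0 1 (by decide)).mp (by decide)
    have e2 : s (j 0) ∧ s (j 2) := by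
      by_contra hh; exact absurd ((e 0 2 (by decide)).mpr hh) (by decide)
    have e3 : s (j 1) ∧ s (j 2) := by
      by_contra hh; exact absurd ((e 1 2 (by decide)).mpr hh) (by decide)
    exact e1 ⟨e2.1, e3.1⟩
  · have e : ∀ x y : Fin 4, x ≠ y → (({x, y} : Finset (Fin 4)) ∈
        ({{0, 1}, {1, 2}, {2, 3}, {0, 3}} : Finset (Finset (Fin 4))) ↔
        ¬ (s (j x) ∧ s (j y))) := fun x y hxy => by
      rw [← h1 x y hxy]; exact h _ _ (hj.ne hxy)
    have e1 := (e 0 1 (by decide)).mp (by decide)
    have e2 : s (j 0) ∧ s (j 2) := by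
      by_contra hh; exact absurd ((e 0 2 (by decide)).mpr hh) (by decide)
    have e3 : s (j 1) ∧ s (j 3) := by
      by_contra hh; exact absurd ((e 1 3 (by decide)).mpr hh) (by decide)
    exact e1 ⟨e2.1, e3.1⟩

theorem ch3 (n : ℕ) : 6 * ((n.choose 3 : ℕ) : ℝ) = n * (n - 1) * (n - 2) := by
  rcases Nat.lt_or_ge n 3 with h | h
  · interval_cases n <;> simp [Nat.choose]
  · have h1 : n.descFactorial 3 = Nat.factorial 3 * n.choose 3 :=
      Nat.descFactorial_eq_factorial_mul_choose n 3
    obtain ⟨m, rfl⟩ : ∃ m, n = m + 3 := ⟨n - 3, by omega⟩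
    have h2 : (m + 3).descFactorial 3 = (m + 1) * ((m + 2) * (m + 3)) := by
      rw [Nat.descFactorial_succ, Nat.descFactorial_succ, Nat.descFactorial_succ,
        Nat.descFactorial_zero]
      have e1 : m + 3 - 0 = m + 3 := by omega
      have e2 : m + 3 - 1 = m + 2 := by omega
      have e3 : m + 3 - 2 = m + 1 := by omega
      rw [e1, e2, e3, mul_one]
    rw [h2] at h1
    have h3 : ((m : ℝ) + 1) * ((m + 2) * (m + 3)) = 6 * (((m + 3).choose 3 : ℕ) : ℝ) := by
      have h4 : (((m + 1) * ((m + 2) * (m + 3)) : ℕ) : ℝ) =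
          ((Nat.factorial 3 * (m + 3).choose 3 : ℕ) : ℝ) := by rw [h1]
      have h5 : Nat.factorial 3 = 6 := by decide
      rw [h5] at h4
      push_cast at h4
      linarith
    rw [← h3]
    push_cast
    ring

theorem twoClass_card (n : ℕ) : ∃ A : Finset (Fin n), 3 * n.choose 3 ≤ 4 * (twoClass A).card := by
  obtain ⟨A, -, hA⟩ := exists_subset_card_eq (s := (univ : Finset (Fin n))) (n := n / 2)
    (by rw [card_univ, Fintype.card_fin]; omega)
  refine ⟨A, ?_⟩
  have hAc : Aᶜ.card = n - n / 2 := by rw [card_compl, Fintype.card_fin, hA]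
  have h1 : (univ : Finset (Fin n)).powersetCard 3 ⊆
      twoClass A ∪ (A.powersetCard 3 ∪ Aᶜ.powersetCard 3) := by
    intro e he
    have he3 := (mem_powersetCard.mp he).2
    by_cases e1 : e ⊆ A
    · exact mem_union_right _ (mem_union_left _ (mem_powersetCard.mpr ⟨e1, he3⟩))
    · by_cases e2 : e ⊆ Aᶜ
      · exact mem_union_right _ (mem_union_right _ (mem_powersetCard.mpr ⟨e2, he3⟩))
      · exact mem_union_left _ (mem_filter.mpr ⟨mem_univ _, he3, e1, e2⟩)
  have h2 := (card_le_card h1).trans ((card_union_le _ _).trans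
    (Nat.add_le_add_left (card_union_le _ _) _))
  rw [card_powersetCard, card_powersetCard, card_powersetCard, card_univ, Fintype.card_fin, hA,
    hAc] at h2
  have h3 : 4 * ((n / 2).choose 3 + (n - n / 2).choose 3) ≤ n.choose 3 := by
    have c0 := ch3 n
    have c1 := ch3 (n / 2)
    have c2 := ch3 (n - n / 2)
    have key : (4 : ℝ) * (((n / 2).choose 3 : ℕ) + ((n - n / 2).choose 3 : ℕ)) ≤
        ((n.choose 3 : ℕ) : ℝ) := by
      rcases Nat.even_or_odd' n with ⟨k, rfl | rfl⟩
      · have e1 : 2 * k / 2 = k := by omega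
        have e2 : 2 * k - 2 * k / 2 = k := by omega
        rw [e2] at c2
        rw [e1] at c1
        rw [e2, e1]
        push_cast at c0 c1 c2
        rcases Nat.eq_zero_or_pos k with rfl | hk
        · simp
        · have hk1 : (1 : ℝ) ≤ k := by exact_mod_cast hk
          nlinarith [mul_nonneg (by linarith : (0 : ℝ) ≤ k) (by linarith : (0 : ℝ) ≤ (k : ℝ) - 1)]
      · have e1 : (2 * k + 1) / 2 = k := by omega
        have e2 : 2 * k + 1 - (2 * k + 1) / 2 = k + 1 := by omega
        rw [e2] at c2
        rw [e1] at c1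
        rw [e2, e1]
        push_cast at c0 c1 c2
        rcases Nat.eq_zero_or_pos k with rfl | hk
        · simp [Nat.choose]
        · have hk1 : (1 : ℝ) ≤ k := by exact_mod_cast hk
          have q : (0 : ℝ) ≤ k * (2 * k - 1) := mul_nonneg (by linarith) (by linarith)
          nlinarith [q]
    exact_mod_cast key
  omega

/-- Let `F` be a finite graph of one of the three families. For every `ε > 0` there are `δ > 0` and
`n0` such that every `K_5^3`-free 3-graph `H` on `n ≥ n0` vertices with at most `δ n^{|F| + 1}`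
labelled induced copies of `F` in its link graphs has at most `(3/4 + ε) C(n,3)` edges. Turán's
construction is `K_5^3`-free and has at least `(3/4) C(n,3)` edges for a suitable division of the
vertices, and it has no induced copy of `F` in its link graphs if `F` has an edge with an isolated
vertex, or a cycle with four vertices as an induced subgraph. -/
theorem result :
    (∀ (α : Type) [Fintype α] (F : SimpleGraph α),
      (TripartiteOne F ∨ EdgeIsolated F ∨ TriangleIsolated F) → ∀ ε : ℝ, 0 < ε →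
      ∃ δ : ℝ, 0 < δ ∧ ∃ n0 : ℕ, ∀ n, n0 ≤ n → ∀ H : Finset (Finset (Fin n)),
        (∀ e ∈ H, e.card = 3) → K53Free H →
        (linkCopies F H : ℝ) ≤ δ * (n : ℝ) ^ (Fintype.card α + 1) →
        (H.card : ℝ) ≤ (3 / 4 + ε) * (n.choose 3 : ℝ)) ∧
    (∀ (n : ℕ) (A : Finset (Fin n)), K53Free (twoClass A)) ∧
    (∀ n : ℕ, ∃ A : Finset (Fin n), 3 * n.choose 3 ≤ 4 * (twoClass A).card) ∧
    (∀ (α : Type) [Fintype α] (F : SimpleGraph α),
      (Inside (k := 3) {{0, 1}} F ∨ Inside (k := 4) {{0, 1}, {1, 2}, {2, 3}, {0, 3}} F) →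
      ∀ (n : ℕ) (A : Finset (Fin n)), linkCopies F (twoClass A) = 0) := by
  refine ⟨?_, fun n A => twoClass_free A, twoClass_card, fun α _ F hF n A => core_two hF A⟩
  intro α _ F hF ε hε
  rcases hF with hF | hF | hF
  · exact fits_main PY okY (by decide) (by decide) (by decide) (by decide) (by decide) hF hε
  · exact fits_main PX okX (by decide) (by decide) (by decide) (by decide) (by decide) hF hε
  · exact fits_main PZ okZ (by decide) (by decide) (by decide) (by decide) (by decide) hF hε

end Pool.Agent.Results.MP_a4d830_co.FiveCliqueInfiniteLinks
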