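import Pool.Agent.H740R2.Lim.Density
import Pool.Agent.TH589.DC.Num2
import Pool.Agent.TH527.LG.Num
import Pool.Agent.H369R2.TD.Link

/-!
# The asymptotics of `π(K_{r+a}^r)` for every fixed gap `a`, up to a constant

The notions are those of `Pool.Agent.H120R2.CliqueDefs`: `ex n r m = ex(n, K_m^r)` and
`turanDensity r m = π(K_m^r)`, the limit of `ex n r m / C(n, r)`.

De Caen's inequality says that `C(r+a, a) (1 - π(K_{r+a}^r))` is at least `1 + a/r`.  We show that for
every fixed gap `a ≥ 1` this normalised distance from one converges as `r → ∞`, to a limit `μ_a`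
which is at least `1`, at most
`(log x + 1 - 1/x) / (1 - (x e^(x-1))^(-1/(a+1)))^(a+1)` for every real `x > 1`, and at most `1.7514`
for `a = 1`.  Moreover, for every `y > 0`, with `p_j = e^(-y) y^j / j!`,
`(1 - (p_0 + ... + p_(a-1))^(1/(a+1)))^(a+1) μ_a` is at most the mean
`∑_m p_(m+a) C(m+a, a) (1 - π(K_{m+a}^m))` of the normalised distances over all sizes.

The existence of the limit and the last inequality are theorems of the starting library
(`Pool.Agent.H740R2.Lim`, determinant codes with a gap), the two upper bounds are those of the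
starting results `MP_465f8a_co.LogarithmicGap` and `MP_a4d830_co.CertifiedCodes`.
-/

set_option autoImplicit false

open Filter Topology Finset

namespace Pool.Agent.Results.MP_a4d830_co.FixedGapLimits

open Pool.Agent.H120R2.Clique Pool.Agent.H740R2.Lim

theorem le_of_GR {a k : ℕ} {M : ℝ} (h : Pool.Agent.W724.TG.GR a k M) :
    ((k + a).choose a : ℝ) * (1 - turanDensity k (k + a)) ≤ M := by
  have hC : (0 : ℝ) < ((k + a).choose a : ℝ) := by exact_mod_cast Nat.choose_pos (by omega)
  have hS : Sys a k (M / ((k + a).choose a : ℝ)) := by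
    intro n
    obtain ⟨F, ⟨hF1, hF2⟩, hF3⟩ := h n
    exact ⟨F, fun Z hZ => (hF1 Z hZ).2, fun Y hY => hF2 Y (Finset.subset_univ _) hY, hF3⟩
  have h1 := density_opt a k _ hS
  rw [le_div_iff₀ hC] at h1
  linarith

/-- For every gap `a ≥ 1`: the Turán densities `π(K_m^r)` are the limits of `ex(n, K_m^r) / C(n, r)`,
and `C(r+a, a) (1 - π(K_{r+a}^r))` converges as `r → ∞`, to a limit `μ ≥ 1` with the stated bounds. -/
theorem result (a : ℕ) (ha : 1 ≤ a) :
    (∀ r : ℕ, Tendsto (fun n : ℕ => (ex n r (r + a) : ℝ) / (n.choose r : ℝ)) atTop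
      (𝓝 (turanDensity r (r + a)))) ∧
    ∃ μ : ℝ, 1 ≤ μ ∧
      Tendsto (fun r : ℕ => ((r + a).choose a : ℝ) * (1 - turanDensity r (r + a))) atTop (𝓝 μ) ∧
      (a = 1 → μ ≤ 1.7514) ∧
      (∀ x : ℝ, 1 < x → μ ≤ (Real.log x + 1 - 1 / x) /
        (1 - (x * Real.exp (x - 1)) ^ (-(1 / ((a : ℝ) + 1)))) ^ (a + 1)) ∧
      ∀ y : ℝ, 0 < y →
        Summable (fun m : ℕ => Real.exp (-y) * y ^ (m + a) / ((m + a).factorial : ℝ) *
          (((m + a).choose a : ℝ) * (1 - turanDensity m (m + a)))) ∧
        (1 - (∑ j ∈ range a, Real.exp (-y) * y ^ j / (j.factorial : ℝ)) ^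
            ((1 : ℝ) / (a + 1))) ^ (a + 1) * μ ≤
          ∑' m : ℕ, Real.exp (-y) * y ^ (m + a) / ((m + a).factorial : ℝ) *
            (((m + a).choose a : ℝ) * (1 - turanDensity m (m + a))) := by
  refine ⟨fun r => ratio_tendsto r (r + a), ?_⟩
  obtain ⟨μ, h1, h2, h3⟩ := main_density ha
  refine ⟨μ, h1, h2, ?_, ?_, h3⟩
  · rintro rfl
    refine le_of_tendsto h2 ?_
    filter_upwards [Pool.Agent.TH589.DC.tur_17514] with r hr
    have h5 := Pool.Agent.H369R2.TD.density_of_tur hr
    have hp : (0 : ℝ) < (r : ℝ) + 1 := by positivity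
    have h6 : (1 - turanDensity r (r + 1)) ≤ (17514 / 10000) / ((r : ℝ) + 1) := by linarith
    rw [le_div_iff₀ hp] at h6
    have e : (1.7514 : ℝ) = 17514 / 10000 := by norm_num
    rw [e, Nat.choose_one_right]
    push_cast
    linarith
  · intro x hx
    have hx0 : 0 < x := by linarith
    have hexp : (x * Real.exp (x - 1)) ^ (-(1 / ((a : ℝ) + 1))) =
        Real.exp (-((Real.log x + x - 1) / ((a : ℝ) + 1))) := by
      have h4 : x * Real.exp (x - 1) = Real.exp (Real.log x + x - 1) := by
        rw [add_sub_assoc, Real.exp_add, Real.exp_log hx0]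
      rw [h4, ← Real.exp_mul]
      congr 1
      ring
    rw [hexp]
    refine le_of_forall_gt_imp_ge_of_dense fun M hM => ?_
    obtain ⟨K, hK⟩ := Pool.Agent.TH527.LG.main_x ha hx hM
    refine le_of_tendsto h2 ?_
    filter_upwards [eventually_ge_atTop K] with r hr
    exact le_of_GR (hK r hr)

end Pool.Agent.Results.MP_a4d830_co.FixedGapLimits
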