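import Pool.Agent.Y400.Tur.Three
import Pool.Agent.Y400.Tur.Bal

/-!
Turán's problem for complete `r`-graphs in the presence of a large independent set.
-/

set_option autoImplicit false

namespace Pool.Agent.Results.MP_a4d830_co.LargeIndependentSet

open Finset

/-- `H` is an `r`-graph on `n` vertices without a complete `r`-graph on `m` vertices. -/
def IsFree (n r m : ℕ) (H : Finset (Finset (Fin n))) : Prop :=
  (∀ e ∈ H, e.card = r) ∧ ∀ S : Finset (Fin n), S.card = m → ∃ e ⊆ S, e.card = r ∧ e ∉ H

/-- the Turán function `ex(n, K_m^r)` -/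
noncomputable def ex (n r m : ℕ) : ℕ :=
  sSup {x | ∃ H : Finset (Finset (Fin n)), IsFree n r m H ∧ H.card = x}

/-- no edge of `H` lies in `A` -/
def Independent {n : ℕ} (H : Finset (Finset (Fin n))) (A : Finset (Fin n)) : Prop :=
  ∀ e ∈ H, ¬ e ⊆ A

/-- the numbers of edges of the `K_m^r`-free `r`-graphs in which `A` is independent -/
def sizes (n r m : ℕ) (A : Finset (Fin n)) : Set ℕ :=
  {x | ∃ H : Finset (Finset (Fin n)), IsFree n r m H ∧ Independent H A ∧ H.card = x}

/-- the number of `r`-sets which meet both `A` and its complement -/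
def crossing (n r : ℕ) (A : Finset (Fin n)) : ℕ :=
  (Finset.univ.filter fun e : Finset (Fin n) => e.card = r ∧ ¬ e ⊆ A ∧ ¬ e ⊆ Aᶜ).card

theorem bdd (n r m : ℕ) :
    BddAbove {x | ∃ H : Finset (Finset (Fin n)), IsFree n r m H ∧ H.card = x} := by
  refine ⟨(Finset.univ : Finset (Finset (Fin n))).card, ?_⟩
  rintro x ⟨H, _, rfl⟩
  exact Finset.card_le_card (Finset.subset_univ _)

theorem ex_mem {n r m : ℕ} (hr : r ≤ m) :
    ∃ H : Finset (Finset (Fin n)), IsFree n r m H ∧ H.card = ex n r m := by
  have hne : {x | ∃ H : Finset (Finset (Fin n)), IsFree n r m H ∧ H.card = x}.Nonempty := by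
    refine ⟨0, ∅, ⟨by simp, fun S hS => ?_⟩, rfl⟩
    obtain ⟨e, he, hec⟩ := Finset.exists_subset_card_eq (s := S) (n := r) (by omega)
    exact ⟨e, he, hec, by simp⟩
  exact Nat.sSup_mem hne (bdd n r m)

theorem le_ex {n r m : ℕ} {H : Finset (Finset (Fin n))} (h : IsFree n r m H) :
    H.card ≤ ex n r m := le_csSup (bdd n r m) ⟨H, h, rfl⟩

/-- families on a subset -/
theorem card_le_ex {n r q : ℕ} {B : Finset (Fin n)} {H : Finset (Finset (Fin n))}
    (h1 : ∀ e ∈ H, e ⊆ B ∧ e.card = r)
    (h2 : ∀ S ⊆ B, S.card = q → ∃ e ⊆ S, e.card = r ∧ e ∉ H) : H.card ≤ ex B.card r q := by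
  classical
  set f : Fin B.card ↪ Fin n := (B.orderEmbOfFin rfl).toEmbedding with hf
  have hrange : ∀ x, x ∈ B ↔ ∃ i, f i = x := by
    intro x
    have := Finset.range_orderEmbOfFin B rfl
    have h3 : x ∈ (B : Set (Fin n)) ↔ x ∈ Set.range (B.orderEmbOfFin rfl) := by rw [this]
    rw [Finset.mem_coe] at h3
    rw [h3]; rfl
  set F : Finset (Finset (Fin B.card)) := Finset.univ.filter fun S => S.map f ∈ H with hF
  have hcard : F.card = H.card := by
    refine Finset.card_bij (fun S _ => S.map f) ?_ ?_ ?_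
    · intro S hS; exact (Finset.mem_filter.1 hS).2
    · intro S _ S' _ h; exact Finset.map_injective f h
    · intro e he
      refine ⟨Finset.univ.filter fun i => f i ∈ e, ?_, ?_⟩
      · rw [hF, Finset.mem_filter]
        refine ⟨Finset.mem_univ _, ?_⟩
        have : (Finset.univ.filter fun i => f i ∈ e).map f = e := by
          ext x
          rw [Finset.mem_map]
          constructor
          · rintro ⟨i, hi, rfl⟩; exact (Finset.mem_filter.1 hi).2
          · intro hx
            obtain ⟨i, rfl⟩ := (hrange x).1 ((h1 e he).1 hx)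
            exact ⟨i, Finset.mem_filter.2 ⟨Finset.mem_univ _, hx⟩, rfl⟩
        rw [this]; exact he
      · ext x
        rw [Finset.mem_map]
        constructor
        · rintro ⟨i, hi, rfl⟩; exact (Finset.mem_filter.1 hi).2
        · intro hx
          obtain ⟨i, rfl⟩ := (hrange x).1 ((h1 e he).1 hx)
          exact ⟨i, Finset.mem_filter.2 ⟨Finset.mem_univ _, hx⟩, rfl⟩
  rw [← hcard]
  apply le_ex
  refine ⟨?_, ?_⟩
  · intro e he
    rw [hF, Finset.mem_filter] at he
    have := (h1 _ he.2).2
    rwa [Finset.card_map] at this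
  · intro S hS
    obtain ⟨e, heS, hec, heH⟩ := h2 (S.map f) (by
      intro x hx
      rw [Finset.mem_map] at hx
      obtain ⟨i, _, rfl⟩ := hx
      exact (hrange _).2 ⟨i, rfl⟩) (by rw [Finset.card_map]; exact hS)
    have hmap : (S.filter fun i => f i ∈ e).map f = e := by
      ext x
      rw [Finset.mem_map]
      constructor
      · rintro ⟨i, hi, rfl⟩; exact (Finset.mem_filter.1 hi).2
      · intro hx
        obtain ⟨i, hi, rfl⟩ := Finset.mem_map.1 (heS hx)
        exact ⟨i, Finset.mem_filter.2 ⟨hi, hx⟩, rfl⟩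
    refine ⟨S.filter fun i => f i ∈ e, Finset.filter_subset _ _, ?_, ?_⟩
    · rw [← Finset.card_map f, hmap, hec]
    · intro h
      rw [hF, Finset.mem_filter, hmap] at h
      exact heH h.2

/-- extremal families on a subset -/
theorem exists_on {n r q : ℕ} (hr : r ≤ q) (B : Finset (Fin n)) :
    ∃ H : Finset (Finset (Fin n)), (∀ e ∈ H, e ⊆ B ∧ e.card = r) ∧
      (∀ S ⊆ B, S.card = q → ∃ e ⊆ S, e.card = r ∧ e ∉ H) ∧ H.card = ex B.card r q := by
  classical
  obtain ⟨F, hF, hFc⟩ := ex_mem (n := B.card) hr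
  set f : Fin B.card ↪ Fin n := (B.orderEmbOfFin rfl).toEmbedding with hf
  have hrange : ∀ x, x ∈ B ↔ ∃ i, f i = x := by
    intro x
    have := Finset.range_orderEmbOfFin B rfl
    have h3 : x ∈ (B : Set (Fin n)) ↔ x ∈ Set.range (B.orderEmbOfFin rfl) := by rw [this]
    rw [Finset.mem_coe] at h3
    rw [h3]; rfl
  refine ⟨F.image fun e => e.map f, ?_, ?_, ?_⟩
  · intro e he
    rw [Finset.mem_image] at he
    obtain ⟨e', he', rfl⟩ := he
    refine ⟨fun x hx => ?_, by rw [Finset.card_map]; exact hF.1 e' he'⟩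
    obtain ⟨i, _, rfl⟩ := Finset.mem_map.1 hx
    exact (hrange _).2 ⟨i, rfl⟩
  · intro S hS hSc
    set S' : Finset (Fin B.card) := Finset.univ.filter fun i => f i ∈ S with hS'
    have hmap : S'.map f = S := by
      ext x
      rw [Finset.mem_map]
      constructor
      · rintro ⟨i, hi, rfl⟩; exact (Finset.mem_filter.1 hi).2
      · intro hx
        obtain ⟨i, rfl⟩ := (hrange x).1 (hS hx)
        exact ⟨i, Finset.mem_filter.2 ⟨Finset.mem_univ _, hx⟩, rfl⟩
    obtain ⟨e, he, hec, heF⟩ := hF.2 S' (by rw [← Finset.card_map f, hmap, hSc])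
    refine ⟨e.map f, ?_, by rw [Finset.card_map]; exact hec, ?_⟩
    · rw [← hmap]; exact Finset.map_subset_map.2 he
    · intro h
      rw [Finset.mem_image] at h
      obtain ⟨e', he', h⟩ := h
      exact heF (Finset.map_injective f h ▸ he')
  · rw [Finset.card_image_of_injective _ (Finset.map_injective f), hFc]

/-- the general reduction -/
theorem main_of_heavy {n r q : ℕ} (hr : 1 ≤ r) (hq : r ≤ q) (A : Finset (Fin n))
    (hheavy : ∀ G : Finset (Finset (Fin n)), (∀ E ∈ G, E.card = r) →
      (∀ K : Finset (Fin n), K.card = q + r - 1 → ∃ E ∈ G, E ⊆ K) →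
      r ≤ Aᶜ.card → ∀ B ⊆ Aᶜ, B.card = q → (∀ E ∈ G, ¬ E ⊆ B) →
      ∃ E ⊆ B, E.card = r ∧ 1 ≤ Pool.Agent.Y400.Tur.wt G A r E) :
    IsGreatest (sizes n r (q + r - 1) A) (crossing n r A + ex Aᶜ.card r q) := by
  classical
  set C : Finset (Finset (Fin n)) :=
    Finset.univ.filter fun e : Finset (Fin n) => e.card = r ∧ ¬ e ⊆ A ∧ ¬ e ⊆ Aᶜ with hC
  have hcr : crossing n r A = C.card := by unfold crossing; rw [hC]
  constructor
  · -- the construction
    obtain ⟨H, h1, h2, h3⟩ := exists_on hq Aᶜ
    have hdis : Disjoint C H := by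
      rw [Finset.disjoint_left]
      intro e he he'
      exact (Finset.mem_filter.1 he).2.2.2 (h1 e he').1
    refine ⟨C ∪ H, ⟨?_, ?_⟩, ?_, ?_⟩
    · intro e he
      rcases Finset.mem_union.1 he with h | h
      · exact (Finset.mem_filter.1 h).2.1
      · exact (h1 e h).2
    · intro S hS
      by_cases hSA : r ≤ (S ∩ A).card
      · obtain ⟨e, he, hec⟩ := Finset.exists_subset_card_eq hSA
        refine ⟨e, he.trans Finset.inter_subset_left, hec, fun h => ?_⟩
        have heA : e ⊆ A := he.trans Finset.inter_subset_right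
        rcases Finset.mem_union.1 h with h | h
        · exact (Finset.mem_filter.1 h).2.2.1 heA
        · obtain ⟨x, hx⟩ := Finset.card_pos.1 (by omega : 0 < e.card)
          exact (Finset.mem_compl.1 ((h1 e h).1 hx)) (heA hx)
      · have h4 : S ∩ Aᶜ = S \ A := by ext x; simp [Finset.mem_sdiff]
        have h5 : (S ∩ A).card + (S ∩ Aᶜ).card = S.card := by
          rw [h4]; exact Finset.card_inter_add_card_sdiff S A
        obtain ⟨S', hS', hSc'⟩ := Finset.exists_subset_card_eq (by omega : q ≤ (S ∩ Aᶜ).card)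
        have hS'A : S' ⊆ Aᶜ := hS'.trans Finset.inter_subset_right
        obtain ⟨e, he, hec, heH⟩ := h2 S' hS'A hSc'
        refine ⟨e, he.trans (hS'.trans Finset.inter_subset_left), hec, fun h => ?_⟩
        rcases Finset.mem_union.1 h with h | h
        · exact (Finset.mem_filter.1 h).2.2.2 (he.trans hS'A)
        · exact heH h
    · intro e he heA
      rcases Finset.mem_union.1 he with h | h
      · exact (Finset.mem_filter.1 h).2.2.1 heA
      · obtain ⟨x, hx⟩ := Finset.card_pos.1 (by rw [(h1 e h).2]; omega : 0 < e.card)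
        exact (Finset.mem_compl.1 ((h1 e h).1 hx)) (heA hx)
    · rw [Finset.card_union_of_disjoint hdis, h3, hcr]
  · rintro x ⟨H, hH, hHA, rfl⟩
    set G : Finset (Finset (Fin n)) := (Finset.univ.powersetCard r) \ H with hG
    have hG1 : ∀ E ∈ G, E.card = r := fun E hE =>
      (Finset.mem_powersetCard.1 (Finset.mem_sdiff.1 hE).1).2
    have hcov : ∀ K : Finset (Fin n), K.card = q + r - 1 → ∃ E ∈ G, E ⊆ K := by
      intro K hK
      obtain ⟨e, he, hec, heH⟩ := hH.2 K hK
      exact ⟨e, Finset.mem_sdiff.2 ⟨Finset.mem_powersetCard.2 ⟨Finset.subset_univ _, hec⟩, heH⟩, he⟩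
    have hA : ∀ S ⊆ A, S.card = r → S ∈ G := by
      intro S hS hSc
      exact Finset.mem_sdiff.2 ⟨Finset.mem_powersetCard.2 ⟨Finset.subset_univ _, hSc⟩,
        fun h => hHA S h hS⟩
    obtain ⟨G', h1, h2, h3⟩ := Pool.Agent.Y400.Tur.reduce hr hq hG1 hA (hheavy G hG1 hcov)
    set H' : Finset (Finset (Fin n)) := (Aᶜ.powersetCard r) \ G' with hH'
    have h4 : H'.card ≤ ex Aᶜ.card r q := by
      apply card_le_ex
      · intro e he
        exact Finset.mem_powersetCard.1 (Finset.mem_sdiff.1 he).1
      · intro S hS hSc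
        obtain ⟨E, hE, hES⟩ := h2 S hS hSc
        exact ⟨E, hES, (h1 E hE).2, fun h => (Finset.mem_sdiff.1 h).2 hE⟩
    have h5 : G' ⊆ Aᶜ.powersetCard r := fun E hE => Finset.mem_powersetCard.2 (h1 E hE)
    have h6 : H'.card = Aᶜ.card.choose r - G'.card := by
      rw [hH', Finset.card_sdiff_of_subset h5, Finset.card_powersetCard]
    have h6' : G'.card ≤ Aᶜ.card.choose r := by
      have := Finset.card_le_card h5
      rwa [Finset.card_powersetCard] at this
    have hHs : H ⊆ Finset.univ.powersetCard r := fun e he =>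
      Finset.mem_powersetCard.2 ⟨Finset.subset_univ _, hH.1 e he⟩
    have h7 : G.card + H.card = n.choose r := by
      rw [hG, Finset.card_sdiff_add_card_eq_card hHs, Finset.card_powersetCard, Finset.card_univ,
        Fintype.card_fin]
    have h8 : C.card + A.card.choose r + Aᶜ.card.choose r = n.choose r := by
      have hd1 : Disjoint (A.powersetCard r) (Aᶜ.powersetCard r) := by
        rw [Finset.disjoint_left]
        intro e he he'
        rw [Finset.mem_powersetCard] at he he'
        obtain ⟨x, hx⟩ := Finset.card_pos.1 (by omega : 0 < e.card)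
        exact (Finset.mem_compl.1 (he'.1 hx)) (he.1 hx)
      have hd2 : Disjoint C (A.powersetCard r ∪ Aᶜ.powersetCard r) := by
        rw [Finset.disjoint_left]
        intro e he he'
        have h9 := (Finset.mem_filter.1 he).2
        rw [Finset.mem_union, Finset.mem_powersetCard, Finset.mem_powersetCard] at he'
        rcases he' with h | h
        · exact h9.2.1 h.1
        · exact h9.2.2 h.1
      have hU : C ∪ (A.powersetCard r ∪ Aᶜ.powersetCard r) = Finset.univ.powersetCard r := by
        ext e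
        rw [Finset.mem_union, Finset.mem_union, hC, Finset.mem_filter, Finset.mem_powersetCard,
          Finset.mem_powersetCard, Finset.mem_powersetCard]
        constructor
        · rintro (h | h | h)
          · exact ⟨Finset.subset_univ _, h.2.1⟩
          · exact ⟨Finset.subset_univ _, h.2⟩
          · exact ⟨Finset.subset_univ _, h.2⟩
        · rintro ⟨_, h⟩
          by_cases h9 : e ⊆ A
          · exact Or.inr (Or.inl ⟨h9, h⟩)
          · by_cases h10 : e ⊆ Aᶜ
            · exact Or.inr (Or.inr ⟨h10, h⟩)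
            · exact Or.inl ⟨Finset.mem_univ _, h, h9, h10⟩
      have h11 := congrArg Finset.card hU
      rw [Finset.card_union_of_disjoint hd2, Finset.card_union_of_disjoint hd1,
        Finset.card_powersetCard, Finset.card_powersetCard, Finset.card_powersetCard,
        Finset.card_univ, Fintype.card_fin] at h11
      omega
    rw [hcr]
    omega

theorem ex_self (n r : ℕ) : ex n r r = 0 := by
  obtain ⟨H, hH, hHc⟩ := ex_mem (n := n) (le_refl r)
  rw [← hHc, Finset.card_eq_zero]
  by_contra hne
  obtain ⟨e, he⟩ := Finset.nonempty_iff_ne_empty.2 hne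
  obtain ⟨e', he', hec', heH'⟩ := hH.2 e (hH.1 e he)
  have : e' = e := Finset.eq_of_subset_of_card_le he' (by rw [hec', hH.1 e he])
  exact heH' (this ▸ he)

/-- the number of crossing triples is at most the number for a balanced division -/
theorem crossing_le {n : ℕ} (A : Finset (Fin n)) :
    crossing n 3 A + ((n / 2).choose 3 + (n - n / 2).choose 3) ≤ n.choose 3 := by
  classical
  have h8 : crossing n 3 A + (A.card.choose 3 + Aᶜ.card.choose 3) = n.choose 3 := by
    unfold crossing
    set C : Finset (Finset (Fin n)) :=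
      Finset.univ.filter fun e : Finset (Fin n) => e.card = 3 ∧ ¬ e ⊆ A ∧ ¬ e ⊆ Aᶜ with hC
    have hd1 : Disjoint (A.powersetCard 3) (Aᶜ.powersetCard 3) := by
      rw [Finset.disjoint_left]
      intro e he he'
      rw [Finset.mem_powersetCard] at he he'
      obtain ⟨x, hx⟩ := Finset.card_pos.1 (by omega : 0 < e.card)
      exact (Finset.mem_compl.1 (he'.1 hx)) (he.1 hx)
    have hd2 : Disjoint C (A.powersetCard 3 ∪ Aᶜ.powersetCard 3) := by
      rw [Finset.disjoint_left]
      intro e he he'
      have h9 := (Finset.mem_filter.1 he).2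
      rw [Finset.mem_union, Finset.mem_powersetCard, Finset.mem_powersetCard] at he'
      rcases he' with h | h
      · exact h9.2.1 h.1
      · exact h9.2.2 h.1
    have hU : C ∪ (A.powersetCard 3 ∪ Aᶜ.powersetCard 3) = Finset.univ.powersetCard 3 := by
      ext e
      rw [Finset.mem_union, Finset.mem_union, hC, Finset.mem_filter, Finset.mem_powersetCard,
        Finset.mem_powersetCard, Finset.mem_powersetCard]
      constructor
      · rintro (h | h | h)
        · exact ⟨Finset.subset_univ _, h.2.1⟩
        · exact ⟨Finset.subset_univ _, h.2⟩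
        · exact ⟨Finset.subset_univ _, h.2⟩
      · rintro ⟨_, h⟩
        by_cases h9 : e ⊆ A
        · exact Or.inr (Or.inl ⟨h9, h⟩)
        · by_cases h10 : e ⊆ Aᶜ
          · exact Or.inr (Or.inr ⟨h10, h⟩)
          · exact Or.inl ⟨Finset.mem_univ _, h, h9, h10⟩
    have h11 := congrArg Finset.card hU
    rw [Finset.card_union_of_disjoint hd2, Finset.card_union_of_disjoint hd1,
      Finset.card_powersetCard, Finset.card_powersetCard, Finset.card_powersetCard,
      Finset.card_univ, Fintype.card_fin] at h11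
    exact h11
  have hAc : A.card + Aᶜ.card = n := by
    rw [Finset.card_compl, Fintype.card_fin]
    have := Finset.card_le_univ A
    rw [Fintype.card_fin] at this
    omega
  have t1 : (n / 2).choose 3 + A.card * (n / 2).choose 2
      ≤ A.card.choose 3 + (n / 2) * (n / 2).choose 2 :=
    Pool.Agent.Y400.Tur.tangent (n / 2) A.card 2
  have t2 : (n / 2).choose 3 + Aᶜ.card * (n / 2).choose 2
      ≤ Aᶜ.card.choose 3 + (n / 2) * (n / 2).choose 2 :=
    Pool.Agent.Y400.Tur.tangent (n / 2) Aᶜ.card 2
  have t3 : (n - n / 2).choose 3 = (n / 2).choose 3 + (n - n / 2 - n / 2) * (n / 2).choose 2 := by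
    rcases Nat.even_or_odd' n with ⟨m, hm | hm⟩
    · have h1 : n / 2 = m := by omega
      have h2 : n - m = m := by omega
      rw [h1, h2]; simp
    · have h1 : n / 2 = m := by omega
      have h2 : n - m = m + 1 := by omega
      have h3 : m + 1 - m = 1 := by omega
      rw [h1, h2, h3, Nat.choose_succ_succ' m 2]; ring
  have t4 : (A.card + Aᶜ.card) * (n / 2).choose 2
      = (n / 2) * (n / 2).choose 2 + (n / 2) * (n / 2).choose 2
        + (n - n / 2 - n / 2) * (n / 2).choose 2 := by
    rw [hAc, ← Nat.add_mul, ← Nat.add_mul]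
    congr 1
    omega
  rw [Nat.add_mul] at t4
  omega

/-- (1) Let `r ≥ 2` and `m ≥ 2r - 1`, and let `A` be a set of vertices with
`(r-1) C(m-r+1,r) |Aᶜ| ≤ |A|`. The largest number of edges of a `K_m^r`-free `r`-graph in which `A` is
independent is the number of crossing `r`-sets plus `ex(|Aᶜ|, K_{m-r+1}^r)`.
(2) If `5 |Aᶜ| ≤ 4 |A| + 6`, then the largest number of edges of a `K_5^3`-free 3-graph in which `A` is
independent is the number of crossing triples.
(3) A `K_5^3`-free 3-graph on `n` vertices with an independent set of at least `(5n - 6) / 9` vertices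
has at most `C(n,3) - C(⌊n/2⌋,3) - C(⌈n/2⌉,3)` edges, Turán's conjectured bound. -/
theorem result :
    (∀ (n r m : ℕ) (A : Finset (Fin n)), 2 ≤ r → 2 * r - 1 ≤ m →
      (r - 1) * (m - r + 1).choose r * Aᶜ.card ≤ A.card →
      IsGreatest (sizes n r m A) (crossing n r A + ex Aᶜ.card r (m - r + 1))) ∧
    (∀ (n : ℕ) (A : Finset (Fin n)), 5 * Aᶜ.card ≤ 4 * A.card + 6 →
      IsGreatest (sizes n 3 5 A) (crossing n 3 A)) ∧
    (∀ (n : ℕ) (H : Finset (Finset (Fin n))) (A : Finset (Fin n)), IsFree n 3 5 H →
      Independent H A → 5 * n ≤ 9 * A.card + 6 →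
      H.card + ((n / 2).choose 3 + (n - n / 2).choose 3) ≤ n.choose 3) := by
  have h2 : ∀ (n : ℕ) (A : Finset (Fin n)), 5 * Aᶜ.card ≤ 4 * A.card + 6 →
      IsGreatest (sizes n 3 5 A) (crossing n 3 A) := by
    intro n A hA
    have h := main_of_heavy (n := n) (r := 3) (q := 3) (by omega) le_rfl A
      (fun G hG hcov hb B hB hBc hno =>
        Pool.Agent.Y400.Tur.heavy_three hG hcov hA hb hB hBc hno)
    rw [ex_self _ 3, Nat.add_zero] at h
    exact h
  refine ⟨?_, h2, ?_⟩
  · intro n r m A hr hm hA
    have h := main_of_heavy (n := n) (r := r) (q := m - r + 1) (by omega) (by omega) A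
      (fun G hG hcov hb B hB hBc hno =>
        Pool.Agent.Y400.Tur.heavy_general (by omega) (by omega) rfl hG hcov hA hb hB hBc hno)
    have e : m - r + 1 + r - 1 = m := by omega
    rw [e] at h
    exact h
  · intro n H A hH hHA hn
    have hAc : A.card + Aᶜ.card = n := by
      rw [Finset.card_compl, Fintype.card_fin]
      have := Finset.card_le_univ A
      rw [Fintype.card_fin] at this
      omega
    have h3 := (h2 n A (by omega)).2 ⟨H, hH, hHA, rfl⟩
    have h4 := crossing_le A
    omega

end Pool.Agent.Results.MP_a4d830_co.LargeIndependentSet
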